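import Pool.Agent.Helper34.FB.Goals

/-!
# Packet FB-REG (MP_05c055_al): two generators of the maximal ideal are a regular sequence
-/

set_option autoImplicit false

namespace Pool.Agent.Helper26.FB

open IsLocalRing Pool.Agent.Helper34.FB

universe u

theorem gREG : G_REG.{u} := by
  intro R _ _ _ _ _ t1 t2 hm hnp a b hab
  have ht1m : t1 ∈ maximalIdeal R := hm ▸ Ideal.subset_span (by simp)
  have ht1 : t1 ≠ 0 := by
    rintro rfl
    apply hnp
    refine ⟨⟨t2, ?_⟩⟩
    rw [hm, Ideal.span_insert_zero]
  have hirr : Irreducible t1 := by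
    constructor
    · exact (mem_maximalIdeal t1).1 ht1m
    · intro x y hxy
      by_contra hcon
      push Not at hcon
      obtain ⟨hx, hy⟩ := hcon
      have hx' : x ∈ maximalIdeal R := (mem_maximalIdeal x).2 hx
      have hy' : y ∈ maximalIdeal R := (mem_maximalIdeal y).2 hy
      apply hnp
      have h1 : t1 ∈ maximalIdeal R * maximalIdeal R := hxy ▸ Ideal.mul_mem_mul hx' hy'
      have h2 : maximalIdeal R ≤ Ideal.span {t2} ⊔ maximalIdeal R • maximalIdeal R := by
        conv_lhs => rw [hm]
        rw [Ideal.span_le]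
        rintro z (rfl | rfl)
        · exact Ideal.mem_sup_right h1
        · exact Ideal.mem_sup_left (Ideal.mem_span_singleton_self _)
      have h3 : maximalIdeal R ≤ Ideal.span {t2} :=
        Submodule.le_of_le_smul_of_le_jacobson_bot (IsNoetherian.noetherian _)
          (IsLocalRing.maximalIdeal_le_jacobson _) h2
      have h4 : Ideal.span {t2} ≤ maximalIdeal R := by
        rw [hm]
        exact Ideal.span_mono (by simp)
      refine ⟨⟨t2, ?_⟩⟩
      exact le_antisymm h3 h4
  have hpr : Prime t1 := UniqueFactorizationMonoid.irreducible_iff_prime.1 hirr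
  have hdvd : t1 ∣ t2 * b := ⟨-a, by linear_combination hab⟩
  rcases hpr.dvd_or_dvd hdvd with h | ⟨c, rfl⟩
  · exfalso
    apply hnp
    refine ⟨⟨t1, ?_⟩⟩
    rw [hm]
    refine le_antisymm ?_ (Ideal.span_mono (by simp))
    rw [Ideal.span_le]
    rintro z (rfl | rfl)
    · exact Ideal.mem_span_singleton_self _
    · exact Ideal.mem_span_singleton.2 h
  · refine ⟨c, ?_, rfl⟩
    have h5 : t1 * (a + t2 * c) = 0 := by linear_combination hab
    have h6 := (mul_eq_zero.1 h5).resolve_left ht1
    linear_combination h6

end Pool.Agent.Helper26.FB
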